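import Pool.Agent.Helper501.EPO.Defs
import Pool.Agent.Helper501.EPO.Main

namespace Pool.Agent.Results.MP_eb9bd3_al.EngelNotSubgroup

open Pool.Agent.Helper501.EPO

/-- Negative answer to Q1: there is a group `G` with no element of order 2 (it is even orderable,
hence torsion-free: `x ^ n = 1` with `n ≥ 1` only for `x = 1`) which has two Engel elements whose
product is not an Engel element, so that the Engel elements of `G` do not form a subgroup. -/
theorem result :
    ∃ (G : Type) (_ : Group G), Orderable G ∧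
      (∀ x : G, x * x = 1 → x = 1) ∧
      (∀ (x : G) (n : ℕ), 1 ≤ n → x ^ n = 1 → x = 1) ∧
      (∃ g h : G, IsEngelElement g ∧ IsEngelElement h ∧ ¬ IsEngelElement (g * h)) ∧
      ¬ ∃ H : Subgroup G, ∀ g : G, g ∈ H ↔ IsEngelElement g := by
  obtain ⟨⟨G, iG, hO, g, h, hg, hh, hgh⟩, -⟩ := Pool.Agent.Helper501.EPO.main
  have htf : ∀ (x : G) (n : ℕ), 1 ≤ n → x ^ n = 1 → x = 1 := by
    obtain ⟨L, hL⟩ := hO
    intro x n hn hx
    by_contra hne
    have hle : L.le 1 x ∨ L.le x 1 := L.le_total 1 x
    rcases hle with h1 | h1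
    · have key : ∀ k : ℕ, L.le x (x ^ (k + 1)) := by
        intro k
        induction k with
        | zero => simpa using L.le_refl x
        | succ k ih =>
          have h2 := (hL 1 x (x ^ (k + 1)) h1).1
          rw [mul_one, ← pow_succ] at h2
          exact L.le_trans _ _ _ ih h2
      obtain ⟨k, rfl⟩ : ∃ k, n = k + 1 := ⟨n - 1, by omega⟩
      have h3 := key k
      rw [hx] at h3
      exact hne (L.le_antisymm _ _ h3 h1)
    · have key : ∀ k : ℕ, L.le (x ^ (k + 1)) x := by
        intro k
        induction k with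
        | zero => simpa using L.le_refl x
        | succ k ih =>
          have h2 := (hL x 1 (x ^ (k + 1)) h1).1
          rw [mul_one, ← pow_succ] at h2
          exact L.le_trans _ _ _ h2 ih
      obtain ⟨k, rfl⟩ : ∃ k, n = k + 1 := ⟨n - 1, by omega⟩
      have h3 := key k
      rw [hx] at h3
      exact hne (L.le_antisymm _ _ h1 h3)
  refine ⟨G, iG, hO, fun x hx => htf x 2 (by norm_num) (by rw [pow_two]; exact hx), htf,
    ⟨g, h, hg, hh, hgh⟩, ?_⟩
  rintro ⟨H, hH⟩
  exact hgh ((hH (g * h)).1 (H.mul_mem ((hH g).2 hg) ((hH h).2 hh)))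

end Pool.Agent.Results.MP_eb9bd3_al.EngelNotSubgroup
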